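import Pool.Agent.Helper26.HN.Stmts

/-!
# Heavy nuclei, row DRI: integrate ESB with `b = d / 8`
-/

set_option autoImplicit false

namespace Pool.Agent.Helper58.HN

open MeasureTheory Filter Pool.Agent.Helper95 Pool.Agent.Helper95.PW Pool.Agent.Helper95.LN
open Pool.Agent.Helper26.HN

theorem near1_mono {M : ℕ} (X : Fin M → R3) (b d : ℝ) (h : b ≤ d) (y : R3) :
    near1 X b y ≤ near1 X d y := by
  unfold near1
  refine Finset.sum_le_sum fun j _ => ?_
  have h0 : (0 : ℝ) ≤ 1 / nr (y - X j) := by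
    have : 0 ≤ nr (y - X j) := Real.sqrt_nonneg _
    positivity
  by_cases h1 : nr (y - X j) < b
  · rw [if_pos h1, if_pos (lt_of_lt_of_le h1 h)]
  · rw [if_neg h1]
    by_cases h2 : nr (y - X j) < d
    · rw [if_pos h2]
      exact h0
    · rw [if_neg h2]

/-- row DRI -/
theorem DRI (h1 : ST_DRZ) (h2 : ST_ESB) (h3 : ST_AED) (h4 : ST_INTM) (h5 : ST_INZ) : ST_DRI := by
  intro d hd
  obtain ⟨C, hC, H⟩ := h1 d hd
  refine ⟨C, hC, ?_⟩
  intro n M X Z z E u hz hM hN hZ hS hE hu hA hq hr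
  obtain ⟨-, -, H3⟩ := H n M X Z z E u hz hM hN hZ hS hE hu hA hq hr
  refine le_trans ?_ H3
  have hz0 : 0 ≤ z := by linarith
  obtain ⟨D, hD⟩ : ∃ D : ℝ, D = 8 * (1 + z) / d := ⟨_, rfl⟩
  rw [← hD]
  have key : ∀ s, ∫ x, (1 / 2 * Dn (d / 8) X Z x + Rem (d / 8) x) * u s x ^ 2 ≤
      (∫ x, rep x * u s x ^ 2) - (∫ x, (∑ k, pot X Z (x k)) * u s x ^ 2) +
        nucR X Z * (∫ x, u s x ^ 2) + D * n * (∫ x, u s x ^ 2) +
        z * ∫ x, (∑ k, near1 X d (x k)) * u s x ^ 2 := by
    intro s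
    obtain ⟨i1, i2, _, _⟩ := h4 n M X Z (u s) (u s) (hu s).1 (hu s).2 (hu s).1 (hu s).2
    have e1 : (fun x : Cf n => (∑ k, pot X Z (x k)) * (u s x * u s x)) =
        fun x : Cf n => (∑ k, pot X Z (x k)) * u s x ^ 2 := by
      funext x; rw [pow_two]
    have e2 : (fun x : Cf n => rep x * (u s x * u s x)) =
        fun x : Cf n => rep x * u s x ^ 2 := by
      funext x; rw [pow_two]
    rw [e1] at i1
    rw [e2] at i2
    have i3 : Integrable (fun x : Cf n => u s x ^ 2) := by
      have i3' : Integrable (fun x => u s x * u s x) :=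
        (((hu s).1.continuous).mul ((hu s).1.continuous)).integrable_of_hasCompactSupport
          (hu s).2.mul_left
      have e3 : (fun x : Cf n => u s x ^ 2) = fun x => u s x * u s x := by
        funext x; rw [pow_two]
      rw [e3]
      exact i3'
    have i4 := (h5 n M X d u hu).1 s
    have j1 : Integrable (fun x : Cf n => rep x * u s x ^ 2 -
        (∑ k, pot X Z (x k)) * u s x ^ 2) := i2.sub i1
    have j2 : Integrable (fun x : Cf n => nucR X Z * u s x ^ 2) := i3.const_mul _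
    have j3 : Integrable (fun x : Cf n => D * n * u s x ^ 2) := i3.const_mul _
    have j4 : Integrable (fun x : Cf n => z * ((∑ k, near1 X d (x k)) * u s x ^ 2)) :=
      i4.const_mul _
    have j5 : Integrable (fun x : Cf n => rep x * u s x ^ 2 -
        (∑ k, pot X Z (x k)) * u s x ^ 2 + nucR X Z * u s x ^ 2) := j1.add j2
    have j6 : Integrable (fun x : Cf n => rep x * u s x ^ 2 -
        (∑ k, pot X Z (x k)) * u s x ^ 2 + nucR X Z * u s x ^ 2 + D * n * u s x ^ 2) :=
      j5.add j3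
    rw [← integral_const_mul, ← integral_const_mul, ← integral_const_mul, ← integral_sub i2 i1,
      ← integral_add j1 j2, ← integral_add j5 j3, ← integral_add j6 j4]
    have hp : ∀ᵐ x : Cf n, 0 ≤ 1 / 2 * Dn (d / 8) X Z x + Rem (d / 8) x ∧
        1 / 2 * Dn (d / 8) X Z x + Rem (d / 8) x ≤
          Vc X Z x + D * n + z * ∑ k, near1 X d (x k) := by
      filter_upwards [h3 n M X] with x hx
      obtain ⟨a1, a2, a3⟩ := h2 z (d / 8) d hz0 (by positivity) (by linarith) n M X Z x hS hN hZ hx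
      refine ⟨by positivity, a3.trans ?_⟩
      have b1 : (1 + z) / (d / 8) = D := by
        rw [hD]
        field_simp
      have b2 : ∑ k, near1 X (2 * (d / 8)) (x k) ≤ ∑ k, near1 X d (x k) :=
        Finset.sum_le_sum fun k _ => near1_mono X _ _ (by linarith) _
      rw [b1]
      have b3 := mul_le_mul_of_nonneg_left b2 hz0
      linarith
    refine integral_mono_of_nonneg ?_ (j6.add j4) ?_
    · filter_upwards [hp] with x hx
      exact mul_nonneg hx.1 (sq_nonneg _)
    · filter_upwards [hp] with x hx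
      have c1 := mul_le_mul_of_nonneg_right hx.2 (sq_nonneg (u s x))
      unfold Vc at c1
      show (1 / 2 * Dn (d / 8) X Z x + Rem (d / 8) x) * u s x ^ 2 ≤
        rep x * u s x ^ 2 - (∑ k, pot X Z (x k)) * u s x ^ 2 + nucR X Z * u s x ^ 2 +
          D * n * u s x ^ 2 + z * ((∑ k, near1 X d (x k)) * u s x ^ 2)
      refine c1.trans (le_of_eq ?_)
      ring
  refine (Finset.sum_le_sum fun s (_ : s ∈ Finset.univ) => key s).trans (le_of_eq ?_)
  rw [Finset.sum_add_distrib, Finset.sum_add_distrib, Finset.sum_add_distrib,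
    Finset.sum_sub_distrib, ← Finset.mul_sum, ← Finset.mul_sum, ← Finset.mul_sum]
  have e3 : QM X Z u = kin u + pair u - one (pot X Z) u := rfl
  have e4 : pair u = ∑ s, ∫ x, rep x * u s x ^ 2 := rfl
  have e5 : one (pot X Z) u = ∑ s, ∫ x, (∑ k, pot X Z (x k)) * u s x ^ 2 := rfl
  have e6 : Helper95.PW.sq u = ∑ s, ∫ x, u s x ^ 2 := rfl
  have e7 : one (near1 X d) u = ∑ s, ∫ x, (∑ k, near1 X d (x k)) * u s x ^ 2 := rfl
  rw [← e4, ← e5, ← e6, ← e7, e3]
  ring

end Pool.Agent.Helper58.HN
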