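import Pool.Agent.Helper71.HN.SheetH

set_option autoImplicit false

namespace Pool.Agent.Helper58.HN

open Polynomial Finset Pool.Agent.Helper71.HN Pool.Agent.Helper71.JN

theorem trh_sum_le {N ι : Type*} [Field N] (v : AbsoluteValue N ℝ)
    (hv : ∀ a b, v (a + b) ≤ max (v a) (v b)) (s : Finset ι) (g : ι → N) (c : ℝ) (hc : 0 ≤ c)
    (h : ∀ i ∈ s, v (g i) ≤ c) : v (∑ i ∈ s, g i) ≤ c := by
  classical
  induction s using Finset.induction_on with
  | empty => rw [Finset.sum_empty, map_zero]; exact hc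
  | insert i s hi ih =>
    rw [Finset.sum_insert hi]
    exact (hv _ _).trans (max_le (h i (Finset.mem_insert_self i s))
      (ih fun j hj => h j (Finset.mem_insert_of_mem hj)))

theorem trh_sum_lt {N ι : Type*} [Field N] (v : AbsoluteValue N ℝ)
    (hv : ∀ a b, v (a + b) ≤ max (v a) (v b)) (s : Finset ι) (g : ι → N) (c : ℝ) (hc : 0 < c)
    (h : ∀ i ∈ s, v (g i) < c) : v (∑ i ∈ s, g i) < c := by
  classical
  induction s using Finset.induction_on with
  | empty => rw [Finset.sum_empty, map_zero]; exact hc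
  | insert i s hi ih =>
    rw [Finset.sum_insert hi]
    exact lt_of_le_of_lt (hv _ _) (max_lt (h i (Finset.mem_insert_self i s))
      (ih fun j hj => h j (Finset.mem_insert_of_mem hj)))

/-- conjugates are not larger -/
theorem trh_conj {K L N : Type} [Field K] [Field L] [Field N] [Algebra K L]
    (ν : AbsoluteValue K ℝ) (v : AbsoluteValue N ℝ) (ι : K →+* N) (σ : L →+* N)
    (hv : ∀ a b, v (a + b) ≤ max (v a) (v b)) (hι : ∀ z, v (ι z) = ν z)
    (hσ : ∀ z, σ (algebraMap K L z) = ι z) (z : L) (hz : IsIntegral K z) (c : ℝ) (hc : 0 ≤ c)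
    (h : ∀ k : ℕ, ν ((minpoly K z).coeff k) ≤ c ^ ((minpoly K z).natDegree - k)) :
    v (σ z) ≤ c := by
  by_contra hcon
  push Not at hcon
  have hmon := minpoly.monic hz
  set P := minpoly K z with hP
  have hn : 0 < P.natDegree := minpoly.natDegree_pos hz
  have hpos : 0 < v (σ z) := lt_of_le_of_lt hc hcon
  have h0 : eval₂ ι (σ z) P = 0 := by
    have h1 : σ (aeval z P) = 0 := by rw [hP, minpoly.aeval, map_zero]
    have h2 : σ.comp (algebraMap K L) = ι := RingHom.ext hσ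
    rw [aeval_def, hom_eval₂, h2] at h1
    exact h1
  rw [eval₂_eq_sum_range, Finset.sum_range_succ, hmon.coeff_natDegree, map_one, one_mul] at h0
  have h1 : (σ z) ^ P.natDegree = -∑ k ∈ range P.natDegree, ι (P.coeff k) * (σ z) ^ k := by
    linear_combination h0
  have h2 : v (∑ k ∈ range P.natDegree, ι (P.coeff k) * (σ z) ^ k) < v (σ z) ^ P.natDegree := by
    apply trh_sum_lt v hv _ _ _ (pow_pos hpos _)
    intro k hk
    have hk' : k < P.natDegree := Finset.mem_range.1 hk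
    rw [map_mul, map_pow, hι]
    have h3 : c ^ (P.natDegree - k) < v (σ z) ^ (P.natDegree - k) :=
      pow_lt_pow_left₀ hcon hc (by omega)
    calc ν (P.coeff k) * v (σ z) ^ k ≤ c ^ (P.natDegree - k) * v (σ z) ^ k :=
          mul_le_mul_of_nonneg_right (h k) (pow_nonneg hpos.le _)
      _ < v (σ z) ^ (P.natDegree - k) * v (σ z) ^ k :=
          mul_lt_mul_of_pos_right h3 (pow_pos hpos _)
      _ = v (σ z) ^ P.natDegree := by
          rw [← pow_add]
          congr 1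
          omega
  have h3 := congrArg v h1
  rw [map_pow, AbsoluteValue.map_neg] at h3
  linarith

theorem trh_int (hLTR : ST_LTR) (hWPT : ST_WPT) {F K L : Type} [Field F] [Field K] [Field L]
    [CharZero K] [Algebra K L] [FiniteDimensional K L] (τ : F →+* K) (ν : AbsoluteValue K ℝ)
    (s : Prop) (δ : K → K) (Δ : L → L) (hU : Ul ν) (hδ : Dv δ) (hB : Bd ν s δ) (hΔ : Dv Δ)
    (hc : ∀ a, Δ (algebraMap K L a) = algebraMap K L (δ a))
    (h1 : ∀ c, c ≠ 0 → ν (τ c) = 1) (h0 : ∀ c, δ (τ c) = 0) (g : ℕ) (hg : 1 ≤ g) (f : F[X])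
    (fm : f.Monic) (fd : f.natDegree = 2 * g + 1) (fs : f.Separable) (x y : L) (hy : y ≠ 0)
    (he : y ^ 2 = eval₂ ((algebraMap K L).comp τ) x f) :
    ν (Algebra.trace K L (Δ x / y)) ≤ 1 ∧ (s → ν (Algebra.trace K L (Δ x / y)) < 1) := by
  obtain ⟨N, hN, v, ι, δ', T, hUv, hδ', hB', hι, hιδ, hσ, hσδ, -, htr⟩ :=
    hLTR K L ν s δ Δ hU hδ hB hΔ hc
  have key : ∀ σ ∈ T, v (σ (Δ x / y)) ≤ 1 ∧ (s → v (σ (Δ x / y)) < 1) := by
    intro σ hσT
    rw [map_div₀, ← hσδ σ hσT]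
    refine hWPT F N (ι.comp τ) v s δ' g f (σ x) (σ y) hUv hδ' hB' ?_ ?_ hg fm fd fs ?_ ?_
    · intro c hc'
      rw [RingHom.comp_apply, hι]
      exact h1 c hc'
    · intro c
      rw [RingHom.comp_apply, hιδ, h0, map_zero]
    · rw [← map_pow, he, hom_eval₂, eval_map]
      congr 1
      ext c
      simp only [RingHom.comp_apply]
      rw [hσ σ hσT]
    · rwa [Ne, map_eq_zero]
  rw [← hι, htr]
  exact ⟨trh_sum_le v hUv.1 _ _ 1 zero_le_one fun σ h => (key σ h).1,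
    fun hs => trh_sum_lt v hUv.1 _ _ 1 one_pos fun σ h => (key σ h).2 hs⟩

theorem trh_near (hLTR : ST_LTR) (hNPT : ST_NPT) {K L : Type} [Field K] [Field L]
    [CharZero K] [Algebra K L] [FiniteDimensional K L] (ν : AbsoluteValue K ℝ)
    (δ : K → K) (Δ : L → L) (hU : Ul ν) (hδ : Dv δ) (hB : Bd ν False δ) (hΔ : Dv Δ)
    (hc : ∀ a, Δ (algebraMap K L a) = algebraMap K L (δ a)) (g : ℕ) (hg : 1 ≤ g) (x y : L)
    (R : K) (hR : ν R = Real.exp 1) (c₁ c₂ : ℝ) (hc₁ : 0 ≤ c₁) (hc₂ : 0 ≤ c₂)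
    (hc₁' : c₁ < Real.exp 1) (hc₂' : c₂ < Real.exp (2 * g + 1))
    (h₁ : ∀ k : ℕ, ν ((minpoly K (x - algebraMap K L (R ^ 2))).coeff k) ≤
      c₁ ^ ((minpoly K (x - algebraMap K L (R ^ 2))).natDegree - k))
    (h₂ : ∀ k : ℕ, ν ((minpoly K (y - algebraMap K L (R ^ (2 * g + 1)))).coeff k) ≤
      c₂ ^ ((minpoly K (y - algebraMap K L (R ^ (2 * g + 1)))).natDegree - k)) :
    ν (Algebra.trace K L (Δ x / y) -
      (Module.finrank K L : K) * (2 * R * δ R / R ^ (2 * g + 1))) < Real.exp (1 - 2 * g) := by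
  obtain ⟨N, hN, v, ι, δ', T, hUv, hδ', hB', hι, hιδ, hσ, hσδ, hcard, htr⟩ :=
    hLTR K L ν False δ Δ hU hδ hB hΔ hc
  have key : ∀ σ ∈ T, v (σ (Δ x / y) - ι (2 * R * δ R / R ^ (2 * g + 1))) <
      Real.exp (1 - 2 * g) := by
    intro σ hσT
    have e1 : v (σ x - ι R ^ 2) < Real.exp 1 := by
      refine lt_of_le_of_lt ?_ hc₁'
      have := trh_conj ν v ι σ hUv.1 hι (hσ σ hσT) _
        (Algebra.IsIntegral.isIntegral (x - algebraMap K L (R ^ 2))) c₁ hc₁ h₁
      rwa [map_sub, hσ σ hσT, map_pow] at this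
    have e2 : v (σ y - ι R ^ (2 * g + 1)) < Real.exp (2 * g + 1) := by
      refine lt_of_le_of_lt ?_ hc₂'
      have := trh_conj ν v ι σ hUv.1 hι (hσ σ hσT) _
        (Algebra.IsIntegral.isIntegral (y - algebraMap K L (R ^ (2 * g + 1)))) c₂ hc₂ h₂
      rwa [map_sub, hσ σ hσT, map_pow] at this
    have e3 := hNPT N v False δ' g (σ x) (σ y) (ι R) hUv hδ' hB' hg (by rw [hι, hR]) e1 e2
    rw [hσδ σ hσT, hιδ] at e3
    have e4 : ι (2 * R * δ R / R ^ (2 * g + 1)) =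
        2 * ι R * ι (δ R) / ι R ^ (2 * g + 1) := by
      simp only [map_div₀, map_mul, map_pow, map_ofNat]
    rw [e4, map_div₀]
    exact e3
  rw [← hι, map_sub, htr, map_mul, map_natCast, ← hcard, ← nsmul_eq_mul, ← Finset.sum_const,
    ← Finset.sum_sub_distrib]
  exact trh_sum_lt v hUv.1 _ _ _ (Real.exp_pos _) key

end Pool.Agent.Helper58.HN
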